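import Pool.Agent.TH729.DegMath

/-!
# Equality of degrees is first-order definable in `ℂ[t]`

One formula of the language of rings, without parameters, defines the relation
`deg f = deg g` (with `deg 0 = -∞`) in the polynomial ring `k[t]`, for every algebraically closed
field `k`, in particular in `ℂ[t]`.

The formula says that `deg f ≤ deg g` and `deg g ≤ deg f`; and `deg f ≤ deg g` is expressed by:
`f = 0`, or `g ≠ 0` and there are an irreducible `t`, constants `a, b, c, d` and a polynomial `h`
such that `p = (t - a) f - c` and `q = (t - b) g - d` are squarefree and `h` maps the zeros of `p`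
injectively into the zeros of `q`; a constant `x` is the value of `t` at a zero of `p` iff
`t - x` divides `p`, and `h` takes the value `y` there iff `t - x` divides `h - y`.
-/

set_option autoImplicit false

namespace Pool.Agent.Results.MP_d395f7_lc.EqualDegree

open FirstOrder FirstOrder.Language FirstOrder.Ring Polynomial

/-- There is one formula `φ(x, y)` of the language of rings, without parameters, which defines
the relation `deg f = deg g` in `k[X]` for all algebraically closed fields `k`. -/
theorem result :
    ∃ φ : Language.ring.Formula (Fin 2),
      ∀ (k : Type) [Field k] [IsAlgClosed k] [CompatibleRing k[X]] (f g : k[X]),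
        φ.Realize ![f, g] ↔ f.degree = g.degree := by
  refine ⟨Pool.Agent.TH729.Deg.eqF, ?_⟩
  intro k _ _ _ f g
  rw [Pool.Agent.TH729.Deg.realize_eqF, Pool.Agent.TH729.Deg.le_iff,
    Pool.Agent.TH729.Deg.le_iff]
  exact ⟨fun h => le_antisymm h.1 h.2, fun h => ⟨h.le, h.ge⟩⟩

end Pool.Agent.Results.MP_d395f7_lc.EqualDegree
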